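import Pool.Agent.Lib.PNT

/-!
# CBR, module SumAP: primes `≡ 1 (mod 3)`, lower bound in dyadic windows

Paper proof. `Lib.PNT.theta_AP` with `q = 3`, `a = 1`, `φ(3) = 2`: `θ(x; 3, 1) / x → 1/2` (read its statement for the exact form;
see `DigM/WinAP.lean`, `ap_scaled`, `window_AP`, for how such limits are used along `2 ^ j`). So
`(θ(2^(j+1); 3, 1) - θ(2^j; 3, 1)) / 2^(j+1) → 1/2 - 1/4 = 1/4`, and it is `≥ 0.24` for `j ≥ j₀`.
The sum of `log p / p` over the primes `p ≡ 1 (mod 3)` in `(2^j, 2^(j+1)]` is at least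
`(θ(2^(j+1); 3, 1) - θ(2^j; 3, 1)) / 2^(j+1) ≥ 0.24` for `j ≥ j₀`, and it is `≥ 0` for the other `j`. Induction on `J`:
the sum up to `2^J` is at least `0.24 (J - j₀)`; take `C = 0.24 j₀`.
-/

open Finset Filter Topology

namespace Pool.Agent.CBR

private theorem icc_eq (n : ℕ) :
    (Icc 1 n).filter (fun p : ℕ => p.Prime ∧ (p : ZMod 3) = 1) =
      (range (n + 1)).filter (fun p : ℕ => p.Prime ∧ p % 3 = 1) := by
  ext p
  simp only [mem_filter, mem_Icc, mem_range]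
  have h : ((p : ZMod 3) = 1) ↔ p % 3 = 1 := by
    have h1 := ZMod.natCast_eq_natCast_iff' p 1 3
    rw [Nat.cast_one] at h1
    exact h1
  rw [h]
  constructor
  · rintro ⟨h1, h2⟩
    exact ⟨by omega, h2⟩
  · rintro ⟨h1, h2⟩
    exact ⟨⟨h2.1.one_lt.le, by omega⟩, h2⟩

private theorem theta_lim :
    Tendsto (fun j : ℕ => (∑ p ∈ (range (2 ^ j + 1)).filter (fun p : ℕ => p.Prime ∧ p % 3 = 1),
      Real.log p) / (2 : ℝ) ^ j) atTop (𝓝 (1 / 2)) := by
  have h1 := Pool.Agent.Lib.PNT.theta_AP (q := 3) (a := (1 : ZMod 3)) isUnit_one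
  have h2 : Tendsto (fun j : ℕ => (2 : ℝ) ^ j) atTop atTop :=
    tendsto_pow_atTop_atTop_of_one_lt (by norm_num)
  have h3 := h1.comp h2
  have h4 : ((Nat.totient 3 : ℕ) : ℝ)⁻¹ = 1 / 2 := by
    have h5 : Nat.totient 3 = 2 := by decide
    rw [h5]
    norm_num
  rw [h4] at h3
  refine h3.congr fun j => ?_
  have h6 : ⌊(2 : ℝ) ^ j⌋₊ = 2 ^ j := by
    have h7 : (2 : ℝ) ^ j = ((2 ^ j : ℕ) : ℝ) := by push_cast; rfl
    rw [h7, Nat.floor_natCast]
  simp only [Function.comp]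
  rw [h6, icc_eq]

theorem sumAP : ∃ C : ℝ, ∀ J : ℕ, 0.24 * (J : ℝ) - C ≤
    ∑ p ∈ (range (2 ^ J + 1)).filter (fun p : ℕ => p.Prime ∧ p % 3 = 1), Real.log p / p := by
  set A : ℕ → Finset ℕ := fun J => (range (2 ^ J + 1)).filter (fun p : ℕ => p.Prime ∧ p % 3 = 1)
    with hA
  set t : ℕ → ℝ := fun J => ∑ p ∈ A J, Real.log p with ht
  have hlim : Tendsto (fun j : ℕ => t j / (2 : ℝ) ^ j) atTop (𝓝 (1 / 2)) := theta_lim
  have hlim2 : Tendsto (fun j : ℕ => t (j + 1) / (2 : ℝ) ^ (j + 1) - (t j / (2 : ℝ) ^ j) / 2) atTop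
      (𝓝 (1 / 2 - (1 / 2) / 2)) :=
    (hlim.comp (tendsto_add_atTop_nat 1)).sub (hlim.div_const 2)
  have hev := hlim2.eventually (lt_mem_nhds (by norm_num : (0.24 : ℝ) < 1 / 2 - (1 / 2) / 2))
  obtain ⟨j0, hj0⟩ := eventually_atTop.1 hev
  have hnn : ∀ J, 0 ≤ ∑ p ∈ A J, Real.log p / p := by
    intro J
    refine Finset.sum_nonneg fun p hp => ?_
    exact div_nonneg (Real.log_natCast_nonneg p) (Nat.cast_nonneg p)
  have hsub : ∀ J, A J ⊆ A (J + 1) := by
    intro J p hp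
    rw [hA] at hp ⊢
    simp only [mem_filter, mem_range] at hp ⊢
    refine ⟨?_, hp.2⟩
    have h1 : 2 ^ J ≤ 2 ^ (J + 1) := Nat.pow_le_pow_right (by norm_num) (by omega)
    omega
  have hstep : ∀ J, (t (J + 1) - t J) / (2 : ℝ) ^ (J + 1) + ∑ p ∈ A J, Real.log p / p ≤
      ∑ p ∈ A (J + 1), Real.log p / p := by
    intro J
    have h1 : ∑ p ∈ A (J + 1) \ A J, Real.log p + t J = t (J + 1) := Finset.sum_sdiff (hsub J)
    have h2 := Finset.sum_sdiff (f := fun p : ℕ => Real.log p / p) (hsub J)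
    have h3 : t (J + 1) - t J = ∑ p ∈ A (J + 1) \ A J, Real.log p := by linarith
    rw [h3, Finset.sum_div, ← h2]
    refine add_le_add (Finset.sum_le_sum fun p hp => ?_) le_rfl
    replace hp := Finset.mem_sdiff.1 hp
    have h4 := hp.1
    rw [hA] at h4
    simp only [mem_filter, mem_range] at h4
    have h5 : (0 : ℝ) < p := by exact_mod_cast h4.2.1.pos
    have h6 : (p : ℝ) ≤ (2 : ℝ) ^ (J + 1) := by
      have h7 : p ≤ 2 ^ (J + 1) := by omega
      exact_mod_cast h7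
    exact div_le_div_of_nonneg_left (Real.log_natCast_nonneg p) h5 h6
  refine ⟨0.24 * j0, fun J => ?_⟩
  show 0.24 * (J : ℝ) - 0.24 * j0 ≤ ∑ p ∈ A J, Real.log p / p
  induction J with
  | zero =>
    have h1 := hnn 0
    have h2 : (0 : ℝ) ≤ j0 := Nat.cast_nonneg j0
    push_cast
    linarith
  | succ J ih =>
    by_cases hJ : j0 ≤ J
    · have h1 := hj0 J hJ
      have h2 := hstep J
      have h3 : (t (J + 1) - t J) / (2 : ℝ) ^ (J + 1) =
          t (J + 1) / (2 : ℝ) ^ (J + 1) - (t J / (2 : ℝ) ^ J) / 2 := by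
        rw [pow_succ]
        have h4 : (2 : ℝ) ^ J ≠ 0 := by positivity
        field_simp
      rw [h3] at h2
      push_cast
      linarith
    · have h1 := hnn (J + 1)
      have h2 : ((J : ℝ) + 1) ≤ j0 := by
        have h3 : J + 1 ≤ j0 := by omega
        exact_mod_cast h3
      push_cast
      linarith

end Pool.Agent.CBR
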